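import Mathlib
import Pool.Agent.Lib.HBD.Final

set_option autoImplicit false

namespace Pool.Agent.Results.MP_47443c_co.TwoPowSum

/-- For every `k = 2 ^ i + 2 ^ j` (`i, j ≥ 0`), homogeneous bent functions of degree `k` exist in
every sufficiently large even number of variables. -/
theorem result :
    ∀ i j : ℕ, ∃ N : ℕ, 2 ≤ N ∧ ∀ n : ℕ, N < n → Even n →
      ∃ S : Finset (Finset (Fin n)), (∀ s ∈ S, s.card = 2 ^ i + 2 ^ j) ∧
        ∀ a : Fin n → ZMod 2,
          (∑ x : Fin n → ZMod 2,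
              (-1 : ℤ) ^ (ZMod.val ((∑ s ∈ S, ∏ i ∈ s, x i) + ∑ i : Fin n, a i * x i))) ^ 2
            = 2 ^ n := by
  intro i j
  exact Pool.Agent.HBD.homBent_two_pow_add i j

end Pool.Agent.Results.MP_47443c_co.TwoPowSum
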